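import Pool.Agent.LPK.Stmts

/-!
# Squad LPK, row SUM: summability of the sums over a lattice and over pairs
-/

set_option autoImplicit false

noncomputable section

open MeasureTheory Filter Topology
open scoped RealInnerProductSpace

namespace Pool.Agent.LPK.H3

open Pool.Agent.LPK

/-- product of summable families on the integers -/
theorem summable_pi (f : ℤ → ℝ) (hf : Summable f) (h0 : ∀ n, 0 ≤ f n) : ∀ n : ℕ,
    Summable (fun x : Fin n → ℤ => ∏ i, f (x i))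
  | 0 => (hasSum_fintype _).summable
  | n + 1 => by
    rw [← (Fin.consEquiv (fun _ : Fin (n + 1) => ℤ)).summable_iff]
    have h := Summable.mul_of_nonneg hf (summable_pi f hf h0 n) h0
      (fun x => Finset.prod_nonneg fun i _ => h0 (x i))
    refine h.congr fun p => ?_
    show _ = ∏ i, f (Fin.cons (α := fun _ => ℤ) p.1 p.2 i)
    rw [Fin.prod_univ_succ]
    simp

/-- one dimensional Gaussian sum -/
theorem summable_gauss {c : ℝ} (hc : 0 < c) : Summable (fun n : ℤ => Real.exp (-c * (n : ℝ) ^ 2)) := by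
  have h1 : Summable (fun n : ℤ => c⁻¹ * (1 / (n : ℝ) ^ 2)) :=
    (Real.summable_one_div_int_pow.mpr one_lt_two).mul_left _
  have h2 : Summable (fun n : ℤ => if n = 0 then (1 : ℝ) else 0) := (hasSum_ite_eq 0 1).summable
  refine Summable.of_nonneg_of_le (fun n => by positivity) (fun n => ?_) (h1.add h2)
  by_cases hn : n = 0
  · subst hn; simp
  · rw [if_neg hn, add_zero]
    have h3 : (0 : ℝ) < (n : ℝ) ^ 2 := by positivity
    have h4 : c * (n : ℝ) ^ 2 + 1 ≤ Real.exp (c * (n : ℝ) ^ 2) := Real.add_one_le_exp _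
    have h5 : Real.exp (-c * (n : ℝ) ^ 2) = (Real.exp (c * (n : ℝ) ^ 2))⁻¹ := by
      rw [← Real.exp_neg]
      congr 1
      ring
    have h6 : c⁻¹ * (1 / (n : ℝ) ^ 2) = (c * (n : ℝ) ^ 2)⁻¹ := by
      rw [one_div, mul_inv]
    rw [h5, h6]
    exact inv_anti₀ (by positivity) (by linarith)

/-- the Gaussian sum over the integer vectors -/
theorem summable_E {c : ℝ} (hc : 0 < c) (n : ℕ) :
    Summable (fun a : Fin n → ℤ => Real.exp (-c * ∑ i, (a i : ℝ) ^ 2)) := by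
  refine (summable_pi _ (summable_gauss hc) (fun n => by positivity) n).congr fun a => ?_
  rw [← Real.exp_sum, Finset.mul_sum]

/-- a power against the Gaussian -/
theorem pow_exp (m : ℕ) : ∃ K : ℝ, 0 ≤ K ∧ ∀ t : ℝ, 0 ≤ t →
    (1 + t) ^ m * Real.exp (-t / 2) ≤ K * Real.exp (-(1 / 4) * t) := by
  refine ⟨4 ^ m * m.factorial * Real.exp (1 / 4), by positivity, fun t ht => ?_⟩
  have h1 := Real.pow_div_factorial_le_exp ((1 + t) / 4) (by positivity) m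
  have h2 : (0 : ℝ) < m.factorial := by exact_mod_cast m.factorial_pos
  have h3 : (1 + t) ^ m ≤ 4 ^ m * m.factorial * Real.exp ((1 + t) / 4) := by
    rw [div_le_iff₀ h2, div_pow, div_le_iff₀ (by positivity)] at h1
    calc (1 + t) ^ m ≤ Real.exp ((1 + t) / 4) * m.factorial * 4 ^ m := h1
      _ = _ := by ring
  have h4 : Real.exp ((1 + t) / 4) * Real.exp (-t / 2) = Real.exp (1 / 4) * Real.exp (-(1 / 4) * t) := by
    rw [← Real.exp_add, ← Real.exp_add]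
    congr 1
    ring
  calc (1 + t) ^ m * Real.exp (-t / 2)
      ≤ 4 ^ m * m.factorial * Real.exp ((1 + t) / 4) * Real.exp (-t / 2) :=
        mul_le_mul_of_nonneg_right h3 (by positivity)
    _ = 4 ^ m * m.factorial * (Real.exp ((1 + t) / 4) * Real.exp (-t / 2)) := by ring
    _ = _ := by rw [h4]; ring

/-- growth of a polynomial in one variable -/
theorem e1_bound : ∀ s : List ℤ, ∃ (C : ℝ) (m : ℕ), 0 ≤ C ∧ ∀ t : ℝ, 0 ≤ t →
    |e1 s t| ≤ C * (1 + t) ^ m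
  | [] => ⟨0, 0, le_refl _, fun t _ => by simp [e1]⟩
  | a :: l => by
    obtain ⟨C, m, hC, h⟩ := e1_bound l
    refine ⟨|(a : ℝ)| + C, m + 1, by positivity, fun t ht => ?_⟩
    have h1 : |e1 (a :: l) t| ≤ |(a : ℝ)| + t * |e1 l t| := by
      show |(a : ℝ) + t * e1 l t| ≤ _
      calc |(a : ℝ) + t * e1 l t| ≤ |(a : ℝ)| + |t * e1 l t| := abs_add_le _ _
        _ = _ := by rw [abs_mul, abs_of_nonneg ht]
    have h2 : t * |e1 l t| ≤ (1 + t) * (C * (1 + t) ^ m) :=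
      mul_le_mul (by linarith) (h t ht) (abs_nonneg _) (by linarith)
    have h3 : (1 : ℝ) ≤ (1 + t) ^ (m + 1) := one_le_pow₀ (by linarith)
    have h4 : |(a : ℝ)| ≤ |(a : ℝ)| * (1 + t) ^ (m + 1) := le_mul_of_one_le_right (abs_nonneg _) h3
    calc |e1 (a :: l) t| ≤ |(a : ℝ)| + t * |e1 l t| := h1
      _ ≤ |(a : ℝ)| * (1 + t) ^ (m + 1) + (1 + t) * (C * (1 + t) ^ m) := add_le_add h4 h2
      _ = _ := by ring

/-- the Gaussian on the lattice -/
theorem gauss_le {n : ℕ} {b : Fin n → V n} {c : ℝ}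
    (hc : ∀ z : Fin n → ℝ, c * ∑ i, z i ^ 2 ≤ ‖∑ i, z i • b i‖ ^ 2) (a : Fin n → ℤ) :
    Real.exp (-(1 / 4) * ‖pt b a‖ ^ 2) ≤ Real.exp (-(c / 4) * ∑ i, (a i : ℝ) ^ 2) := by
  refine Real.exp_le_exp.2 ?_
  have h := hc (fun i => (a i : ℝ))
  have e : pt b a = ∑ i, (a i : ℝ) • b i := rfl
  rw [← e] at h
  linarith

/-- one vector -/
theorem w1_bound (s : List ℤ) : ∃ K : ℝ, 0 ≤ K ∧ ∀ (n : ℕ) (x : V n),
    |W1 s x| ≤ K * Real.exp (-(1 / 4) * ‖x‖ ^ 2) := by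
  obtain ⟨C, m, hC, h⟩ := e1_bound s
  obtain ⟨K, hK, hk⟩ := pow_exp m
  refine ⟨C * K, by positivity, fun n x => ?_⟩
  have h1 := h (‖x‖ ^ 2) (by positivity)
  have h2 := hk (‖x‖ ^ 2) (by positivity)
  have h3 : 0 < G x := Real.exp_pos _
  have h4 : G x = Real.exp (-‖x‖ ^ 2 / 2) := rfl
  unfold W1
  rw [abs_mul, abs_of_pos h3]
  calc |e1 s (‖x‖ ^ 2)| * G x ≤ C * (1 + ‖x‖ ^ 2) ^ m * G x := mul_le_mul_of_nonneg_right h1 h3.le
    _ = C * ((1 + ‖x‖ ^ 2) ^ m * Real.exp (-‖x‖ ^ 2 / 2)) := by rw [h4]; ring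
    _ ≤ C * (K * Real.exp (-(1 / 4) * ‖x‖ ^ 2)) := mul_le_mul_of_nonneg_left h2 hC
    _ = _ := by ring

theorem sum (h1 : BddStmt) (h2 : DuaStmt) : SumStmt := by
  intro n κ κ' b c b' c' hb hc
  obtain ⟨-, -, ⟨cb, hcb, hb1⟩, -, -⟩ := h2 n κ b b' hb
  obtain ⟨-, -, ⟨cc, hcc, hc1⟩, -, -⟩ := h2 n κ' c c' hc
  have sb := summable_E (c := cb / 4) (by positivity) n
  have sc := summable_E (c := cc / 4) (by positivity) n
  have sbc : Summable (fun a : Z2 n => Real.exp (-(cb / 4) * ∑ i, (a.1 i : ℝ) ^ 2) *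
      Real.exp (-(cc / 4) * ∑ i, (a.2 i : ℝ) ^ 2)) :=
    Summable.mul_of_nonneg sb sc (fun a => (Real.exp_pos _).le) (fun a => (Real.exp_pos _).le)
  refine ⟨fun p y => ?_, fun p => ?_, fun s => ?_, fun s t => ?_⟩
  · obtain ⟨C, m, hC, h⟩ := h1 p
    obtain ⟨K, hK, hk⟩ := pow_exp m
    refine Summable.of_norm_bounded (sb.mul_left (C * (1 + ‖y‖ ^ 2) ^ m * K)) fun a => ?_
    have h3 := h n (pt b a) y
    have h4 := hk (‖pt b a‖ ^ 2) (by positivity)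
    have h5 : 0 < G (pt b a) := Real.exp_pos _
    have h6 : G (pt b a) = Real.exp (-‖pt b a‖ ^ 2 / 2) := rfl
    have h7 := gauss_le hb1 a
    rw [Real.norm_eq_abs, abs_mul, abs_of_pos h5]
    calc |e3 p (‖pt b a‖ ^ 2) (‖y‖ ^ 2) ⟪pt b a, y⟫| * G (pt b a)
        ≤ C * (1 + ‖pt b a‖ ^ 2) ^ m * (1 + ‖y‖ ^ 2) ^ m * G (pt b a) :=
          mul_le_mul_of_nonneg_right h3 h5.le
      _ = C * (1 + ‖y‖ ^ 2) ^ m * ((1 + ‖pt b a‖ ^ 2) ^ m * Real.exp (-‖pt b a‖ ^ 2 / 2)) := by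
          rw [h6]; ring
      _ ≤ C * (1 + ‖y‖ ^ 2) ^ m * (K * Real.exp (-(1 / 4) * ‖pt b a‖ ^ 2)) :=
          mul_le_mul_of_nonneg_left h4 (by positivity)
      _ ≤ C * (1 + ‖y‖ ^ 2) ^ m * (K * Real.exp (-(cb / 4) * ∑ i, (a i : ℝ) ^ 2)) :=
          mul_le_mul_of_nonneg_left (mul_le_mul_of_nonneg_left h7 hK) (by positivity)
      _ = _ := by ring
  · obtain ⟨C, m, hC, h⟩ := h1 p
    obtain ⟨K, hK, hk⟩ := pow_exp m
    refine Summable.of_norm_bounded (sbc.mul_left (C * K * K)) fun a => ?_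
    have h3 := h n (pt b a.1) (pt c a.2)
    have h4 := hk (‖pt b a.1‖ ^ 2) (by positivity)
    have h4' := hk (‖pt c a.2‖ ^ 2) (by positivity)
    have h5 : 0 < G (pt b a.1) * G (pt c a.2) := mul_pos (Real.exp_pos _) (Real.exp_pos _)
    have h6 : G (pt b a.1) = Real.exp (-‖pt b a.1‖ ^ 2 / 2) := rfl
    have h6' : G (pt c a.2) = Real.exp (-‖pt c a.2‖ ^ 2 / 2) := rfl
    have h7 := gauss_le hb1 a.1
    have h7' := gauss_le hc1 a.2
    unfold W
    rw [Real.norm_eq_abs, abs_mul, abs_of_pos h5]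
    calc |e3 p (‖pt b a.1‖ ^ 2) (‖pt c a.2‖ ^ 2) ⟪pt b a.1, pt c a.2⟫| *
          (G (pt b a.1) * G (pt c a.2))
        ≤ C * (1 + ‖pt b a.1‖ ^ 2) ^ m * (1 + ‖pt c a.2‖ ^ 2) ^ m *
          (G (pt b a.1) * G (pt c a.2)) := mul_le_mul_of_nonneg_right h3 h5.le
      _ = C * (((1 + ‖pt b a.1‖ ^ 2) ^ m * Real.exp (-‖pt b a.1‖ ^ 2 / 2)) *
          ((1 + ‖pt c a.2‖ ^ 2) ^ m * Real.exp (-‖pt c a.2‖ ^ 2 / 2))) := by
          rw [h6, h6']; ring
      _ ≤ C * ((K * Real.exp (-(1 / 4) * ‖pt b a.1‖ ^ 2)) *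
          (K * Real.exp (-(1 / 4) * ‖pt c a.2‖ ^ 2))) :=
          mul_le_mul_of_nonneg_left (mul_le_mul h4 h4' (by positivity) (by positivity)) hC
      _ ≤ C * ((K * Real.exp (-(cb / 4) * ∑ i, (a.1 i : ℝ) ^ 2)) *
          (K * Real.exp (-(cc / 4) * ∑ i, (a.2 i : ℝ) ^ 2))) :=
          mul_le_mul_of_nonneg_left (mul_le_mul (mul_le_mul_of_nonneg_left h7 hK)
            (mul_le_mul_of_nonneg_left h7' hK) (by positivity) (by positivity)) hC
      _ = _ := by ring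
  · obtain ⟨K, hK, hk⟩ := w1_bound s
    refine Summable.of_norm_bounded (sb.mul_left K) fun a => ?_
    rw [Real.norm_eq_abs]
    exact (hk n (pt b a)).trans (mul_le_mul_of_nonneg_left (gauss_le hb1 a) hK)
  · obtain ⟨K, hK, hk⟩ := w1_bound s
    obtain ⟨K', hK', hk'⟩ := w1_bound t
    refine Summable.of_norm_bounded (sbc.mul_left (K * K')) fun a => ?_
    rw [Real.norm_eq_abs, abs_mul]
    have h3 := (hk n (pt b a.1)).trans (mul_le_mul_of_nonneg_left (gauss_le hb1 a.1) hK)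
    have h4 := (hk' n (pt c a.2)).trans (mul_le_mul_of_nonneg_left (gauss_le hc1 a.2) hK')
    calc |W1 s (pt b a.1)| * |W1 t (pt c a.2)|
        ≤ (K * Real.exp (-(cb / 4) * ∑ i, (a.1 i : ℝ) ^ 2)) *
          (K' * Real.exp (-(cc / 4) * ∑ i, (a.2 i : ℝ) ^ 2)) :=
          mul_le_mul h3 h4 (abs_nonneg _) (by positivity)
      _ = _ := by ring

end Pool.Agent.LPK.H3
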